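import Pool.Agent.H19PG.Mat

/-!
# The contraction of a set makes one geometry nearly a restriction and keeps the other one

Let `N₁ = M / C₁ \ D₁` and `N₂ = M / C₂ \ D₂` be projective geometries over finite fields of
different characteristic that are `t`-interconnected minors of `M`, where `t` depends only on `k`
and on the two fields. If there is a set `C` such that in `M / C` the local connectivity of
`E(N₁)` and `C₁` is at most `c`, a part of `N₁` of large rank survives, and a part of `N₂` of rank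
at least `t` survives, then `M` has a `U_{k,2k}`-minor.
-/

open scoped Matroid LinearAlgebra.Projectivization

namespace Pool.Agent.Results.MP_1d0bfd_co.SurvivingGeometry

universe u

/-- `N` is isomorphic to the projective geometry `PG(n, K)`: its elements correspond to the
one-dimensional subspaces of `K ^ (n + 1)`, and a set of elements is independent if and only if
the nonzero vectors chosen from the corresponding subspaces are linearly independent. -/
def IsPG (K : Type) [Field K] (n : ℕ) {α : Type u} (N : Matroid α) : Prop :=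
  ∃ f : ℙ K (Fin (n + 1) → K) → α, Function.Injective f ∧ Set.range f = N.E ∧
    ∀ T : Set (ℙ K (Fin (n + 1) → K)),
      N.Indep (f '' T) ↔ LinearIndepOn K (fun p : ℙ K (Fin (n + 1) → K) => p.rep) T

/-- The minors `N₁` and `N₂` of `M` have disjoint ground sets and are `t`-interconnected in `M`. -/
def Interconnected (t : ℕ) {α : Type u} (M N₁ N₂ : Matroid α) : Prop :=
  Disjoint N₁.E N₂.E ∧
    ∀ X, N₁.E ⊆ X → X ⊆ M.E \ N₂.E → M.eRank + t ≤ M.eRk X + M.eRk (M.E \ X)

/-- `M` has a minor isomorphic to `U_{k,2k}`. -/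
def HasUniformMinor {α : Type u} (M : Matroid α) (k : ℕ) : Prop :=
  ∃ N : Matroid α, N ≤m M ∧ N.E.encard = 2 * k ∧ ∀ I ⊆ N.E, N.Indep I ↔ I.encard ≤ k

/-- The rank `r_M(X ∪ C) - r_M(C)` of `X` in `M / C` is at least `b`. -/
def RankGE {α : Type u} (M : Matroid α) (C X : Set α) (b : ℕ) : Prop :=
  M.eRk C + b ≤ M.eRk (X ∪ C)

/-- The local connectivity of `X` and `Y` in `M / C` is at most `c`, that is,
`r(X) + r(Y) - r(X ∪ Y) ≤ c` for the rank function `r(Z) = r_M(Z ∪ C) - r_M(C)` of `M / C`. -/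
def ConnLE {α : Type u} (M : Matroid α) (C X Y : Set α) (c : ℕ) : Prop :=
  M.eRk (X ∪ C) + M.eRk (Y ∪ C) ≤ M.eRk (X ∪ Y ∪ C) + M.eRk C + c

/-- For all `k` and all finite fields of different characteristic there is `t`, and for all `c`
there is `b`, such that the following holds. Let `N₁ = M / C₁ \ D₁` and `N₂ = M / C₂ \ D₂` be
`t`-interconnected minors of `M` that are projective geometries over `K₁` and `K₂`, and let `C` be
a set such that the rank of `E(N₁)` in `M / (C ∪ C₁)` is at least `b`, that of `E(N₂)` in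
`M / (C ∪ C₂)` is at least `t`, and the local connectivity of `E(N₁)` and `C₁` in `M / C` is at
most `c`. Then `M` has a `U_{k,2k}`-minor. -/
theorem result (k : ℕ) (K₁ K₂ : Type) [Field K₁] [Finite K₁] [Field K₂] [Finite K₂]
    (hchar : ringChar K₁ ≠ ringChar K₂) :
    ∃ t : ℕ, ∀ c : ℕ, ∃ b : ℕ, ∀ {α : Type u} (M N₁ N₂ : Matroid α)
      (C₁ D₁ C₂ D₂ C : Set α) (n₁ n₂ : ℕ), M.Finite → C₁ ⊆ M.E → C₂ ⊆ M.E → C ⊆ M.E →
      N₁ = M ／ C₁ ＼ D₁ → N₂ = M ／ C₂ ＼ D₂ → IsPG K₁ n₁ N₁ → IsPG K₂ n₂ N₂ →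
      Interconnected t M N₁ N₂ → RankGE M (C ∪ C₁) N₁.E b → RankGE M (C ∪ C₂) N₂.E t →
      ConnLE M C N₁.E C₁ c →
      HasUniformMinor M k := by
  obtain ⟨t, ht⟩ := H19PG.Mat.main_matroid.{u} k K₁ K₂ hchar
  refine ⟨t, fun c => ?_⟩
  obtain ⟨b, hb⟩ := ht c
  refine ⟨b, ?_⟩
  intro α M N₁ N₂ C₁ D₁ C₂ D₂ C n₁ n₂ hM h1 h2 h3 h4 h5 h6 h7 h8 h9 h10 h11
  exact hb M N₁ N₂ C₁ D₁ C₂ D₂ C n₁ n₂ hM h1 h2 h3 h4 h5 h6 h7 h8 h9 h10 (Or.inl h11)

end Pool.Agent.Results.MP_1d0bfd_co.SurvivingGeometry
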